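import Pool.Graph.R_pool_sql_team_seeded_2aa45f1a.Q328.BG.Red
import Pool.Graph.R_pool_sql_team_seeded_2aa45f1a.Q328.BG.Mem
import Pool.Graph.R_seed8.H642R2.TMSim
import Pool.Graph.R_seed8.NPC.Dec

/-!
# Solving Boggle logic puzzles is NP-complete already for puzzles of bandwidth three

The library's reduction from bin packing gives puzzles which describe strips with two rows: the
letters `2 t + 1`, `2 t + 2` form a column, and two words of length four make the letters of two
consecutive columns of a strip pairwise adjacent. So all words have four letters and consecutive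
letters of a word differ by at most three. A fixed puzzle without solution (three items of size two
and two bins of capacity three) is used when the numbers of the items do not fit, so that all values
of the reduction are puzzles of this kind.
-/

set_option autoImplicit false

namespace Pool.Agent.Results.MP_406c0a_lc.BandwidthThree

open Pool.Agent.NPC Pool.Agent.NPC.H632 Pool.Agent.H557R2.Tri Pool.Agent.H692R2
open Pool.Agent.H43R3.SN Pool.Agent.NPC.SNP Pool.Agent.NPC.Q328.BG

/-- Every word has exactly four letters, and consecutive letters of a word differ by at most three.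
In particular the adjacency graph of the puzzle has bandwidth at most three: the natural order of
the letters is a layout in which the two ends of every edge are at distance at most three. -/
def Narrow (P : List (List ℕ)) : Prop :=
  ∀ w ∈ P, w.length = 4 ∧ w.IsChain fun u v => u ≤ v + 3 ∧ v ≤ u + 3

theorem narrow_inst (a : List ℕ) (b B : ℕ) : Narrow (inst a b B).2 := by
  intro w hw
  unfold inst at hw
  dsimp only at hw
  rw [List.mem_flatMap] at hw
  obtain ⟨t, _, hw⟩ := hw
  simp only [words, List.mem_cons, List.not_mem_nil, or_false] at hw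
  rcases hw with rfl | rfl
  · refine ⟨rfl, ?_⟩
    simp only [List.isChain_cons_cons, List.isChain_singleton, and_true]
    omega
  · refine ⟨rfl, ?_⟩
    simp only [List.isChain_cons_cons, List.isChain_singleton, and_true]
    omega

theorem no_pack : ¬ BPk [2, 2, 2] 2 3 := by
  rintro ⟨f, hf, hc⟩
  have h0 := hf 0 (by simp)
  have h1 := hf 1 (by simp)
  have h2 := hf 2 (by simp)
  have key : ∀ i j : ℕ, i < 3 → j < 3 → i ≠ j → f i < 2 → f i = f j → False := by
    intro i j hi hj hij hlt he
    have h := hc (f i) hlt
    have hsub : ({i, j} : Finset ℕ) ⊆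
        (Finset.range [2, 2, 2].length).filter (fun k => f k = f i) := by
      intro k hk
      rw [Finset.mem_insert, Finset.mem_singleton] at hk
      rw [Finset.mem_filter, Finset.mem_range]
      rcases hk with rfl | rfl
      · exact ⟨hi, rfl⟩
      · exact ⟨hj, he.symm⟩
    have h3 := Finset.sum_le_sum_of_subset (f := fun k => [2, 2, 2].getD k 0) hsub
    rw [Finset.sum_pair hij] at h3
    have g : ∀ k < 3, [2, 2, 2].getD k 0 = 2 := by decide
    rw [g i hi, g j hj] at h3
    omega
  by_cases e1 : f 0 = f 1
  · exact key 0 1 (by norm_num) (by norm_num) (by norm_num) h0 e1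
  by_cases e2 : f 0 = f 2
  · exact key 0 2 (by norm_num) (by norm_num) (by norm_num) h0 e2
  exact key 1 2 (by norm_num) (by norm_num) (by norm_num) h1 (by omega)

theorem pos222 : ∀ i < [2, 2, 2].length, 1 ≤ [2, 2, 2].getD i 0 := by decide

/-- The reduction from exact cover. -/
noncomputable def red' (I : List (ℕ × ℕ × ℕ) × ℕ) : List Unit × List (List ℕ) :=
  if tst I then inst (sizes (clip I)) (bb (clip I)) (BB (clip I)) else inst [2, 2, 2] 2 3

theorem poly_red' : Poly red' := by
  unfold red'
  refine NPC.Poly.ite (p := tst) poly_tst ?_ (NPC.Poly.const _)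
  exact poly_inst ubb uBB (poly_sizes.comp poly_clip)

theorem red'_correct (I : List (ℕ × ℕ × ℕ) × ℕ) (hI : Pr I.1 I.2) :
    (X3C I ↔ BoggleSolve (red' I)) ∧ IsInput (red' I) ∧ Narrow (red' I).2 := by
  have hbd : Pool.Agent.NPC.SNP.bd I = I := by
    unfold Pool.Agent.NPC.SNP.bd
    rw [Nat.min_eq_left (q_le hI)]
  rw [Pool.Agent.H43R3.SN.SRC.taskSRC I hI]
  have hb : 1 ≤ bb I := by
    have := hI.ne
    have h2 : 0 < I.1.length := List.length_pos_iff.2 this
    unfold bb
    omega
  have hB : 1 ≤ BB I := by
    unfold BB MM
    omega
  by_cases h : tst I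
  · have hc : clip I = I := by
      unfold clip
      rw [if_pos h, hbd]
    have hr : red' I = inst (sizes I) (bb I) (BB I) := by
      unfold red'
      rw [if_pos h, hc]
    have hsum : (sizes I).sum = bb I * BB I := by
      unfold tst at h
      rwa [hbd] at h
    rw [hr, inst_iff hb hB hsum (sizes_pos I)]
    exact ⟨and_iff_right hsum, inst_input hB hsum, narrow_inst _ _ _⟩
  · have hr : red' I = inst [2, 2, 2] 2 3 := by
      unfold red'
      rw [if_neg h]
    rw [hr, inst_iff (by norm_num) (by norm_num) (by norm_num) pos222]
    refine ⟨⟨?_, fun h => absurd h no_pack⟩, inst_input (by norm_num) (by norm_num),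
      narrow_inst _ _ _⟩
    rintro ⟨h1, _⟩
    exfalso
    apply h
    unfold tst
    rwa [hbd]

theorem hardPr : HardPr (fun I => IsInput I ∧ Narrow I.2) BoggleSolve :=
  hardPr_X3Cr.trans poly_red' (fun I hI => (red'_correct I hI).2)
    (fun I hI => (red'_correct I hI).1)

theorem poly_eq_true : Poly (fun y : List Bool => decide (y = [true])) := by
  fun_prop

/-- **BOGGLE-SOLVE is NP-complete already for puzzles of bandwidth three.** BOGGLE-SOLVE is in NP.
Every language in NP has a polynomial-time many-one reduction to BOGGLE-SOLVE all of whose values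
are inputs `(n, P)` in which every word has exactly four letters and consecutive letters of a word
differ by at most three. If a polynomial-time algorithm is correct on these inputs, then P = NP. -/
theorem result : InNPP BoggleSolve ∧ NPHardP BoggleSolve ∧
    (∀ L : Set (List Bool), InNP L → ∃ f : List Bool → List Unit × List (List ℕ),
      PolyTime (fun x => bits (f x)) ∧
      ∀ x, (IsInput (f x) ∧ Narrow (f x).2) ∧ (x ∈ L ↔ BoggleSolve (f x))) ∧
    (∀ D : List Bool → List Bool, PolyTime D →
      (∀ I, IsInput I → Narrow I.2 → (D (bits I) = [true] ↔ BoggleSolve I)) →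
      ∀ L : Set (List Bool), InNP L → InP L) := by
  refine ⟨mem, hard, ?_, ?_⟩
  · intro L hL
    obtain ⟨f, hf, hpr, hfL⟩ := hardPr L hL
    exact ⟨f, PC.toPolyTime hf, fun x => ⟨hpr x, hfL x⟩⟩
  · intro D hD h L hL
    obtain ⟨f, hf, hpr, hfL⟩ := hardPr L hL
    have h1 : PC (fun x : List Bool => x) (fun x : List Bool => x) (fun x => bits (f x)) := hf
    have h2 : PC (fun x : List Bool => x) (fun x : List Bool => x) D :=
      H642R2.TMSim.polyTime_toPC hD
    have h3 : PC (fun x : List Bool => x) (fun x : List Bool => x)
        (fun x => D (bits (f x))) := PC.comp h2 h1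
    refine ⟨_, polyTime_test (PC.toPolyTime h3) poly_eq_true, fun x => ?_⟩
    rw [hfL x, ← h _ (hpr x).1 (hpr x).2]
    simp

end Pool.Agent.Results.MP_406c0a_lc.BandwidthThree
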